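import Pool.Agent.V11105.IsbellPrime

/-!
# MP_150402_gt, Q1: `C(Y, Z)` with `t_1^Z` need not be regular

The answer to Q1 is negative, already for a countable Hausdorff space `Y` with exactly one
non-isolated point and the two-point discrete space `Z`.
-/

namespace Pool.Agent.Results.MP_150402_gt.NotRegular

open Pool.Agent.V11105.IsbellPrime

/-- The statement of Q1: if `Z` is regular, then `C(Y, Z)` with `t_1^Z` is regular.
(`RegularSpace` of Mathlib does not include any `T_1` axiom.) -/
def Q1 : Prop :=
  ∀ (Y Z : Type) [TopologicalSpace Y] [TopologicalSpace Z], RegularSpace Z →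
    @RegularSpace C(Y, Z) (t1Z Y Z)

/-- Q1 is false; moreover `Z` can be the two-point discrete space and `Y` a countable
Hausdorff space all of whose points but one are isolated. -/
theorem result : ¬ Q1 ∧
    ∃ (Y : Type) (_ : TopologicalSpace Y), Countable Y ∧ T2Space Y ∧
      (∃ y₀ : Y, ∀ y, y ≠ y₀ → IsOpen ({y} : Set Y)) ∧
      ¬ @RegularSpace C(Y, Bool) (t1Z Y Bool) := by
  refine ⟨fun h => not_regular (h X Bool inferInstance), X, inferInstance, countable_X,
    inferInstance, ⟨X.pt, ?_⟩, not_regular⟩
  rintro (_ | p) h
  · exact absurd rfl h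
  · exact (clopen_singleton p).isOpen

end Pool.Agent.Results.MP_150402_gt.NotRegular
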